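import Pool.Agent.W500.FL.Stm

set_option autoImplicit false

namespace Pool.Agent.W963.FL.STA

open Polynomial Pool.Agent.W500.FL

theorem chi_pow_even {K : Type} [Field K] [Fintype K] [DecidableEq K] (a : K) (ha : a ≠ 0) (n : ℕ)
    (hn : Even n) : quadraticChar K a ^ n = 1 := by
  obtain ⟨k, rfl⟩ := hn
  rw [← two_mul, pow_mul, quadraticChar_sq_one ha, one_pow]

theorem main : S_J → S_NT → S_FR → S_R → S_V → S_U → S_DEL → S_STA := by
  intro hJ hNT hFR hR hV hU hDEL K _ _ _ p _ _ hchar H t hH ht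
  classical
  obtain ⟨hJ1, hJ2, hJ3, hJ4, hJ5, hJ6, hJ7⟩ := hJ K
  have hp2 : 2 ≤ p := (Fact.out : p.Prime).two_le
  obtain ⟨w, hw1, hw2, hw3⟩ := hU K p H
  -- nonvanishing
  have hd1 : ∀ h ∈ H, derivative h ≠ 0 := by
    intro h hh h0
    exact hH h hh (by rw [h0, derivative_zero])
  have hd0 : ∀ h ∈ H, h ≠ 0 := by
    intro h hh h0
    exact hd1 h hh (by rw [h0, derivative_zero])
  -- the common multiple
  let S : Finset K[X] := H ∪ H.image derivative ∪ H.image (fun h => derivative (derivative h)) ∪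
    ((H ×ˢ H).image (fun q => derivative q.1 - derivative q.2)).filter (fun f => f ≠ 0) ∪
    ((H ×ˢ H).image (fun q => w q.1 - w q.2)).filter (fun f => f ≠ 0)
  have hS : ∀ f ∈ S, f ≠ 0 := by
    intro f hf
    simp only [S, Finset.mem_union, Finset.mem_image, Finset.mem_filter] at hf
    rcases hf with (((hf | ⟨h, hh, rfl⟩) | ⟨h, hh, rfl⟩) | ⟨_, hf⟩) | ⟨_, hf⟩
    · exact hd0 f hf
    · exact hd1 h hh
    · exact hH h hh
    · exact hf
    · exact hf
  obtain ⟨V, hVm, hV4, hVd⟩ := hV K S hS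
  have hVh : ∀ h ∈ H, h ∣ V := by
    intro h hh
    apply hVd
    simp only [S, Finset.mem_union]
    exact Or.inl (Or.inl (Or.inl (Or.inl hh)))
  have hVh1 : ∀ h ∈ H, derivative h ∣ V := by
    intro h hh
    apply hVd
    simp only [S, Finset.mem_union]
    exact Or.inl (Or.inl (Or.inl (Or.inr (Finset.mem_image_of_mem _ hh))))
  have hVh2 : ∀ h ∈ H, derivative (derivative h) ∣ V := by
    intro h hh
    apply hVd
    simp only [S, Finset.mem_union]
    exact Or.inl (Or.inl (Or.inr (Finset.mem_image.2 ⟨h, hh, rfl⟩)))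
  have hVhk : ∀ h ∈ H, ∀ k ∈ H, derivative h ≠ derivative k →
      derivative h - derivative k ∣ V := by
    intro h hh k hk hne
    apply hVd
    simp only [S, Finset.mem_union]
    refine Or.inl (Or.inr (Finset.mem_filter.2 ⟨Finset.mem_image.2 ⟨(h, k), ?_, rfl⟩, ?_⟩))
    · exact Finset.mem_product.2 ⟨hh, hk⟩
    · exact sub_ne_zero.2 hne
  have hVw : ∀ h ∈ H, ∀ k ∈ H, h ≠ k → w h - w k ∣ V := by
    intro h hh k hk hne
    apply hVd
    simp only [S, Finset.mem_union]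
    refine Or.inr (Finset.mem_filter.2 ⟨Finset.mem_image.2 ⟨(h, k), ?_, rfl⟩, ?_⟩)
    · exact Finset.mem_product.2 ⟨hh, hk⟩
    · exact sub_ne_zero.2 (hw3 h hh k hk hne)
  -- the degree
  obtain ⟨l, hl1, hl2⟩ : ∃ l : ℕ, V.natDegree < p * (2 * l) ∧
      ∀ h ∈ H, (w h).natDegree < p * (2 * l) := by
    refine ⟨V.natDegree + (∑ h ∈ H, (w h).natDegree) + 1, ?_, ?_⟩
    · nlinarith [Nat.zero_le (∑ h ∈ H, (w h).natDegree), Nat.zero_le V.natDegree]
    · intro h hh
      have := Finset.single_le_sum (f := fun h => (w h).natDegree)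
        (fun i _ => Nat.zero_le _) hh
      nlinarith [Nat.zero_le (∑ h ∈ H, (w h).natDegree), Nat.zero_le V.natDegree]
  set D : ℕ := p * (2 * l) with hD
  let u : K[X] → K[X] := fun h => w h + X ^ D
  have hum : ∀ h ∈ H, (u h).Monic := by
    intro h hh
    show (w h + X ^ D).Monic
    rw [add_comm]
    apply monic_X_pow_add
    have h1 := hl2 h hh
    exact lt_of_le_of_lt degree_le_natDegree (by exact_mod_cast h1)
  have hud : ∀ h ∈ H, (u h).natDegree = D := by
    intro h hh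
    show (w h + X ^ D).natDegree = D
    rw [natDegree_add_eq_right_of_natDegree_lt]
    · exact natDegree_X_pow D
    · rw [natDegree_X_pow]; exact hl2 h hh
  have hu1 : ∀ h ∈ H, derivative (u h) = 1 := by
    intro h hh
    show derivative (w h + X ^ D) = 1
    rw [derivative_add, hw1 h hh, derivative_X_pow]
    have : ((D : ℕ) : K) = 0 := by
      rw [hD, Nat.cast_mul, CharP.cast_eq_zero, zero_mul]
    rw [this, C_0, zero_mul, add_zero]
  -- rough parts
  have hex : ∀ h : K[X], ∃ q : K[X] × K[X], h ∈ H → (q.1.Monic ∧ q.2.Monic ∧ u h = q.1 * q.2 ∧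
      q.1 ∣ V ∧ IsCoprime q.2 V ∧ Squarefree q.2 ∧ 0 < q.2.natDegree) := by
    intro h
    by_cases hh : h ∈ H
    · obtain ⟨σ, ρ, h1, h2, h3, h4, h5, h6, h7⟩ := hR K (u h) V (hum h hh) (hu1 h hh) hVm
        (by rw [hud h hh]; exact hl1)
      exact ⟨(σ, ρ), fun _ => ⟨h1, h2, h3, h4, h5, h6, h7⟩⟩
    · exact ⟨(0, 0), fun h' => absurd h' hh⟩
  choose q hq using hex
  let σ : K[X] → K[X] := fun h => (q h).1
  let ρ : K[X] → K[X] := fun h => (q h).2
  have hσm : ∀ h ∈ H, (σ h).Monic := fun h hh => (hq h hh).1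
  have hρm : ∀ h ∈ H, (ρ h).Monic := fun h hh => (hq h hh).2.1
  have huσρ : ∀ h ∈ H, u h = σ h * ρ h := fun h hh => (hq h hh).2.2.1
  have hσV : ∀ h ∈ H, σ h ∣ V := fun h hh => (hq h hh).2.2.2.1
  have hρV : ∀ h ∈ H, IsCoprime (ρ h) V := fun h hh => (hq h hh).2.2.2.2.1
  have hρs : ∀ h ∈ H, Squarefree (ρ h) := fun h hh => (hq h hh).2.2.2.2.2.1
  have hρd : ∀ h ∈ H, 0 < (ρ h).natDegree := fun h hh => (hq h hh).2.2.2.2.2.2
  have hρρ : ∀ h ∈ H, ∀ k ∈ H, h ≠ k → IsCoprime (ρ h) (ρ k) := by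
    intro h hh k hk hne
    have h1 : IsCoprime (ρ h) (w h - w k) :=
      IsCoprime.of_isCoprime_of_dvd_right (hρV h hh) (hVw h hh k hk hne)
    have h2 : u k = ρ h * σ h + -(w h - w k) := by
      have e1 : u h = ρ h * σ h := by rw [huσρ h hh, mul_comm]
      rw [← e1]
      show w k + X ^ D = w h + X ^ D + -(w h - w k)
      ring
    have h3 : IsCoprime (ρ h) (u k) := by
      rw [h2, add_comm]
      exact IsCoprime.add_mul_left_right (h1.neg_right) (σ h)
    exact IsCoprime.of_isCoprime_of_dvd_right h3 ⟨σ k, by rw [huσρ k hk, mul_comm]⟩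
  -- the residues
  let m : K[X] → K := fun h => (derivative h).leadingCoeff
  have hm0 : ∀ h ∈ H, m h ≠ 0 := fun h hh => leadingCoeff_ne_zero.2 (hd1 h hh)
  let b : K[X] → K[X] := fun h => C (m h)⁻¹ * derivative h
  have hxex : ∀ h : K[X], ∃ x : K[X], h ∈ H →
      jac (ρ h) x = quadraticChar K (m h) ^ (σ h).natDegree * t h := by
    intro h
    by_cases hh : h ∈ H
    · have hpm : quadraticChar K (m h) ^ (σ h).natDegree * t h = 1 ∨
          quadraticChar K (m h) ^ (σ h).natDegree * t h = -1 := by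
        have h1 : quadraticChar K (m h) ^ (σ h).natDegree = 1 ∨
            quadraticChar K (m h) ^ (σ h).natDegree = -1 := by
          rcases quadraticChar_dichotomy (hm0 h hh) with h2 | h2
          · left; rw [h2, one_pow]
          · rw [h2]; exact neg_one_pow_eq_or ℤ _
        rcases h1 with h1 | h1 <;> rcases ht h hh with h2 | h2 <;> rw [h1, h2] <;> simp
      obtain ⟨x, hx⟩ := hNT K hchar (ρ h) (hρm h hh) (hρs h hh) (hρd h hh) _ hpm
      exact ⟨x, fun _ => hx⟩
    · exact ⟨0, fun h' => absurd h' hh⟩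
  choose x hx using hxex
  obtain ⟨Y, hYm, hY4, hYN, hYd⟩ := hFR K p V H ρ (fun h => b h * x h - derivative h)
    (fun h hh => ⟨hρm h hh, hρs h hh, hρV h hh⟩) hρρ ((∑ h ∈ H, h.natDegree) + 1)
  have hVYd : ∀ h ∈ H, h.natDegree < (V * Y).natDegree := by
    intro h hh
    rw [hVm.natDegree_mul hYm]
    have := Finset.single_le_sum (f := fun h : K[X] => h.natDegree)
      (fun i _ => Nat.zero_le _) hh
    omega
  refine ⟨V, Y, fun h => w h - h + X ^ D, hVm, hYm, hV4, hY4, ?_, hVhk, ?_, ?_⟩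
  · intro h hh
    exact ⟨hVh h hh, hVh1 h hh, hVh2 h hh, hVYd h hh⟩
  · intro h hh k hk hder
    show w h - h + X ^ D = w k - k + X ^ D
    rw [hw2 h hh k hk hder]
  · intro h hh Δ b' m' hΔ hb' hdb hbΔ
    have huh : w h - h + X ^ D + h = u h := by
      show w h - h + X ^ D + h = w h + X ^ D
      ring
    show jac Δ (w h - h + X ^ D + h) = t h
    rw [huh]
    -- identify m' and b'
    have hmm : m' = m h := by
      show m' = (derivative h).leadingCoeff
      rw [hdb, leadingCoeff_mul, leadingCoeff_C, hb'.leadingCoeff, mul_one]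
    have hm'0 : m' ≠ 0 := by rw [hmm]; exact hm0 h hh
    have hbb : b h = b' := by
      show C (m h)⁻¹ * derivative h = b'
      rw [← hmm, hdb, ← mul_assoc, ← C_mul, inv_mul_cancel₀ hm'0, C_1, one_mul]
    -- V divides Δ - C m
    have hVΔ : V ∣ Δ - C m' := by
      obtain ⟨hA, -⟩ := hDEL K p V (V * Y) hVm (hVm.mul hYm) (Dvd.intro _ rfl)
      obtain ⟨Δ₂, b₂, m₂, hm₂, hb₂, hd₂, hΔ₂, hbΔ₂, hV₂, -, -, -⟩ :=
        hA (derivative h) (hd1 h hh) (hH h hh) (hVh1 h hh) (hVh2 h hh)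
          (lt_of_le_of_lt (natDegree_derivative_le h |>.trans (Nat.sub_le _ _)) (hVYd h hh))
      have e1 : m₂ = m' := by
        have h1 : (derivative h).leadingCoeff = m₂ := by
          rw [hd₂, leadingCoeff_mul, leadingCoeff_C, hb₂.leadingCoeff, mul_one]
        rw [← h1, hmm]
      have e2 : b₂ = b' := by
        have h1 : C m' * b₂ = C m' * b' := by rw [← hdb, ← e1, ← hd₂]
        exact mul_left_cancel₀ (C_ne_zero.2 hm'0) h1
      have e3 : Δ₂ = Δ := by
        have h1 : b' * Δ₂ = b' * Δ := by rw [hbΔ, ← e2, hbΔ₂]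
        exact mul_left_cancel₀ hb'.ne_zero h1
      rw [← e3, ← e1]
      exact hV₂
    have hσΔ : σ h ∣ Δ - C m' := (hσV h hh).trans hVΔ
    have hρb : IsCoprime (ρ h) b' := by
      refine IsCoprime.of_isCoprime_of_dvd_right (hρV h hh) ?_
      refine dvd_trans ?_ (hVh1 h hh)
      exact ⟨C m', by rw [hdb, mul_comm]⟩
    have hρΔ : ρ h ∣ Δ - x h := by
      have h1 := hYd h hh
      have h2 : V ^ p * Y ^ p - (b h * x h - derivative h) = b' * (Δ - x h) := by
        rw [mul_sub, hbΔ, hbb, mul_pow]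
        ring
      rw [h2] at h1
      exact hρb.dvd_of_dvd_mul_left h1
    have hDe : Even D := ⟨p * l, by rw [hD]; ring⟩
    rw [hJ5 Δ (u h) hΔ (hum h hh), hud h hh,
      chi_pow_even (-1 : K) (neg_ne_zero.2 one_ne_zero) _ (hDe.mul_left _), one_mul,
      huσρ h hh, hJ2 (σ h) (ρ h) Δ (hσm h hh) (hρm h hh), hJ3 (σ h) Δ (C m') (hσm h hh) hσΔ,
      hJ3 (ρ h) Δ (x h) (hρm h hh) hρΔ, hJ4 (σ h) m' (hσm h hh), hx h hh, hmm, ← mul_assoc,
      ← pow_add, chi_pow_even (m h) (hm0 h hh) _ ⟨_, rfl⟩, one_mul]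

end Pool.Agent.W963.FL.STA
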